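import Pool.Agent.Work.MP_b30479_gt.VOL.Ph

/-!
# Real and imaginary part of `ph` as real functions, monotonicity

`A x t = log |2 sin π(x + i t)|`, `B x t = arg sin π(x + i t)`.
-/

namespace Pool.Agent.Work.MP_b30479_gt.G2.Num

open VOL Real

/-- `log |2 sin π(x + i t)|` -/
noncomputable def A (x t : ℝ) : ℝ := Real.log (4 * (sin (π * x) ^ 2 + sinh (π * t) ^ 2)) / 2

/-- `arg sin π(x + i t)` -/
noncomputable def B (x t : ℝ) : ℝ :=
  Real.arctan (cos (π * x) * sinh (π * t) / (sin (π * x) * cosh (π * t)))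

theorem ph_re {z : ℂ} (hz : z ∈ strip) : (ph z).re = A z.re z.im := by
  unfold ph A
  rw [Complex.log_re, norm_mul, Complex.norm_ofNat]
  have h1 : ‖Complex.sin (π * z)‖ = √(sin (π * z.re) ^ 2 + sinh (π * z.im) ^ 2) := by
    rw [Complex.norm_def, Complex.normSq_apply, sin_pi_re, sin_pi_im]
    congr 1
    have c1 := Real.sin_sq_add_cos_sq (π * z.re)
    have c2 := Real.cosh_sq (π * z.im)
    have e1 : cos (π * z.re) ^ 2 = 1 - sin (π * z.re) ^ 2 := by linarith
    have : sin (π * z.re) * cosh (π * z.im) * (sin (π * z.re) * cosh (π * z.im)) +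
      cos (π * z.re) * sinh (π * z.im) * (cos (π * z.re) * sinh (π * z.im)) =
      sin (π * z.re) ^ 2 * cosh (π * z.im) ^ 2 + cos (π * z.re) ^ 2 * sinh (π * z.im) ^ 2 := by ring
    rw [this, c2, e1]
    ring
  rw [h1]
  have h2 : 0 < sin (π * z.re) := sin_pi_pos hz.1 hz.2
  have h3 : 0 < sin (π * z.re) ^ 2 + sinh (π * z.im) ^ 2 := by positivity
  rw [Real.log_mul (by norm_num) (by positivity), Real.log_sqrt h3.le,
    Real.log_mul (by norm_num) (by positivity), show (4 : ℝ) = 2 ^ 2 by norm_num, Real.log_pow]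
  push_cast
  ring

theorem ph_im {z : ℂ} (hz : z ∈ strip) : (ph z).im = B z.re z.im := by
  unfold ph B
  rw [Complex.log_im]
  have h2 : 0 < (Complex.sin (π * z)).re := sin_pi_re_pos hz
  have h3 : 0 < (2 * Complex.sin (π * z)).re := by
    simpa using h2
  have h4 : Complex.arg (2 * Complex.sin (π * z)) = Complex.arg (Complex.sin (π * z)) := by
    have := Complex.arg_real_mul (Complex.sin (π * z)) (show (0 : ℝ) < 2 by norm_num)
    simpa using this
  have h5 := Complex.abs_arg_lt_pi_div_two_iff.mpr (Or.inl h2)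
  rw [h4, ← sin_pi_re, ← sin_pi_im, ← Complex.tan_arg,
    Real.arctan_tan (abs_lt.mp h5).1 (abs_lt.mp h5).2]

/-! ### symmetries -/

theorem A_neg (x t : ℝ) : A x (-t) = A x t := by
  unfold A
  rw [mul_neg, sinh_neg, neg_sq]

theorem A_one_sub (x t : ℝ) : A (1 - x) t = A x t := by
  unfold A
  rw [show π * (1 - x) = π - π * x by ring, sin_pi_sub]

theorem B_neg (x t : ℝ) : B x (-t) = -B x t := by
  unfold B
  rw [mul_neg, sinh_neg, cosh_neg, ← arctan_neg]
  congr 1
  ring

theorem B_one_sub (x t : ℝ) : B (1 - x) t = -B x t := by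
  unfold B
  rw [show π * (1 - x) = π - π * x by ring, sin_pi_sub, cos_pi_sub, ← arctan_neg]
  congr 1
  ring

theorem A_abs (x t : ℝ) : A x |t| = A x t := by
  rcases abs_choice t with h | h <;> rw [h]
  exact A_neg x t

theorem B_zero (x : ℝ) : B x 0 = 0 := by
  unfold B
  simp

end Pool.Agent.Work.MP_b30479_gt.G2.Num
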