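import Pool.Agent.Work.MP_b30479_gt.G2.VHess
import Pool.Agent.Work.MP_b30479_gt.G2.Num.Fn
import Pool.Agent.Work.NumI.Expr

/-!
# `LL`, `YY`, `CC`, `SS` in terms of the functions of the numerics engine
-/

namespace Pool.Agent.Work.MP_b30479_gt.G2.Num

open VOL

theorem lnA_eq (x t : ℝ) : NumI.lnA x t = A x t := rfl
theorem lnB_eq (x t : ℝ) : NumI.lnB x t = B x t := rfl

theorem LL_lnA {u : ℂ} (hu : u ∈ strip) : LL u = NumI.lnA u.re u.im := by
  rw [lnA_eq, ← Num.ph_re hu, LL_eq]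
  unfold ph
  rw [Complex.log_re]

theorem YY_lnB {u : ℂ} (hu : u ∈ strip) : YY u = -NumI.lnB u.re u.im := by
  rw [lnB_eq, ← Num.ph_im hu, G2.ph_im hu, neg_neg]

theorem den_eq (u : ℂ) : Real.cosh (2 * Real.pi * u.im) - Real.cos (2 * Real.pi * u.re) =
    2 * NumI.MM u.re u.im := by
  unfold NumI.MM
  rw [mul_assoc 2 Real.pi u.im, Real.cosh_two_mul, mul_assoc 2 Real.pi u.re, Real.cos_two_mul]
  have e1 := Real.sin_sq_add_cos_sq (Real.pi * u.re)
  have e2 := Real.cosh_sq (Real.pi * u.im)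
  linarith

theorem CC_PP (u : ℂ) : CC u = Real.pi * NumI.PP u.re u.im := by
  unfold CC NumI.PP
  rw [den_eq, mul_assoc 2 Real.pi u.re, Real.sin_two_mul, mul_assoc (2 : ℝ),
    mul_div_mul_left _ _ (by norm_num)]

theorem SS_QQ (u : ℂ) : SS u = Real.pi * NumI.QQ u.re u.im := by
  unfold SS NumI.QQ
  rw [den_eq, mul_assoc 2 Real.pi u.im, Real.sinh_two_mul, mul_assoc (2 : ℝ),
    mul_div_mul_left _ _ (by norm_num)]

end Pool.Agent.Work.MP_b30479_gt.G2.Num
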