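import Pool.Agent.Work.MP_b30479_gt.G2.Num.Zeta
import Pool.Agent.Work.MP_b30479_gt.VOL.Ph

/-!
# Expansion of `π cot π z` near `0` with explicit remainder
-/

namespace Pool.Agent.Work.MP_b30479_gt.G2.Num

open VOL Complex

theorem strip_mem_compl {z : ℂ} (hz : z ∈ strip) : z ∈ Complex.integerComplement := by
  rintro ⟨n, hn⟩
  have h1 := hz.1
  have h2 := hz.2
  rw [← hn] at h1 h2
  simp only [Complex.intCast_re] at h1 h2
  have h3 : (0 : ℤ) < n := by exact_mod_cast h1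
  have h4 : n < 1 := by exact_mod_cast h2
  omega

/-- one term of the series -/
theorem cot_term {z m : ℂ} (hm : m ≠ 0) (h1 : z - m ≠ 0) (h2 : z + m ≠ 0) :
    1 / (z - m) + 1 / (z + m) = -(2 * z * (1 / m ^ 2)) - 2 * z ^ 3 * (1 / m ^ 4) -
      2 * z ^ 5 * (1 / m ^ 6) - 2 * z ^ 7 / (m ^ 6 * (m ^ 2 - z ^ 2)) := by
  have h3 : m ^ 2 - z ^ 2 ≠ 0 := by
    have : m ^ 2 - z ^ 2 = -((z - m) * (z + m)) := by ring
    rw [this]
    exact neg_ne_zero.mpr (mul_ne_zero h1 h2)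
  field_simp
  ring

theorem hasSum_Zt' {k : ℕ} (hk : k ≠ 0) :
    HasSum (fun n : ℕ => (1 / ((n : ℂ) + 2) ^ (2 * k))) (Zt k : ℂ) := by
  have h1 := (summable_Zt hk).hasSum
  have h2 := Complex.hasSum_ofReal.mpr h1
  have e : (fun n : ℕ => (1 / ((n : ℂ) + 2) ^ (2 * k))) =
      fun x : ℕ => (((1 / ((x : ℝ) + 2) ^ (2 * k)) : ℝ) : ℂ) := by
    funext n
    push_cast
    rfl
  rw [e]
  exact h2

theorem norm_rem_le {z : ℂ} (hn : ‖z‖ ^ 2 ≤ 1 / 2) (n : ℕ) :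
    ‖2 * z ^ 7 / (((n : ℂ) + 2) ^ 6 * (((n : ℂ) + 2) ^ 2 - z ^ 2))‖ ≤
      16 / 7 * ‖z‖ ^ 7 * (1 / ((n : ℝ) + 2) ^ (2 * 4)) := by
  have hn0 : (0 : ℝ) ≤ n := Nat.cast_nonneg n
  have h1 : ‖((n : ℂ) + 2)‖ = (n : ℝ) + 2 := by
    have : ((n : ℂ) + 2) = (((n : ℝ) + 2 : ℝ) : ℂ) := by push_cast; rfl
    rw [this, Complex.norm_real, Real.norm_of_nonneg (by linarith only [])]
  have h2 : 7 / 8 * ((n : ℝ) + 2) ^ 2 ≤ ‖((n : ℂ) + 2) ^ 2 - z ^ 2‖ := by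
    have h3 := norm_sub_norm_le (((n : ℂ) + 2) ^ 2) (z ^ 2)
    rw [norm_pow, norm_pow, h1] at h3
    nlinarith
  have h4 : (0 : ℝ) < 7 / 8 * ((n : ℝ) + 2) ^ 2 := by positivity
  rw [norm_div, norm_mul, norm_mul, norm_pow, norm_pow, h1, Complex.norm_ofNat]
  have h6 : 0 < ‖((n : ℂ) + 2) ^ 2 - z ^ 2‖ := lt_of_lt_of_le h4 h2
  rw [div_le_iff₀ (by positivity)]
  have h5 : 16 / 7 * ‖z‖ ^ 7 * (1 / ((n : ℝ) + 2) ^ (2 * 4)) *
      (((n : ℝ) + 2) ^ 6 * (7 / 8 * ((n : ℝ) + 2) ^ 2)) = 2 * ‖z‖ ^ 7 := by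
    have : ((n : ℝ) + 2) ≠ 0 := by positivity
    field_simp
    ring
  rw [← h5]
  apply mul_le_mul_of_nonneg_left _ (by positivity)
  exact mul_le_mul_of_nonneg_left h2 (by positivity)

theorem ph'_expand {z : ℂ} (hz : z ∈ strip) (hn : ‖z‖ ^ 2 ≤ 1 / 2) :
    ‖ph' z - 1 / z - 1 / (z - 1) - 1 / (z + 1) + 2 * z * Zt 1 + 2 * z ^ 3 * Zt 2 +
      2 * z ^ 5 * Zt 3‖ ≤ 16 / 7 * Zt 4 * ‖z‖ ^ 7 := by
  have hc := strip_mem_compl hz
  have h1 := cot_series_rep' hc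
  have e1 : ph' z = Real.pi * Complex.cot (Real.pi * z) := by
    unfold ph'
    rw [Complex.cot, mul_div_assoc]
  have hsum : HasSum (fun n => cotTerm z n) (Real.pi * Complex.cot (Real.pi * z) - 1 / z) := by
    have := Summable.hasSum (summable_cotTerm hc)
    rwa [← h1] at this
  have hs1 := (hasSum_nat_add_iff' 1).mpr hsum
  rw [Finset.sum_range_one] at hs1
  have hb := ((hs1.add ((hasSum_Zt' (k := 1) one_ne_zero).mul_left (2 * z))).add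
    ((hasSum_Zt' (k := 2) two_ne_zero).mul_left (2 * z ^ 3))).add
    ((hasSum_Zt' (k := 3) (by norm_num)).mul_left (2 * z ^ 5))
  have h8 : HasSum (fun n : ℕ => 16 / 7 * ‖z‖ ^ 7 * (1 / ((n : ℝ) + 2) ^ (2 * 4)))
      (16 / 7 * ‖z‖ ^ 7 * Zt 4) := (summable_Zt (k := 4) (by norm_num)).hasSum.mul_left _
  have hz7 : ‖z‖ < 1 := by
    have := norm_nonneg z
    nlinarith only [hn, this]
  have key : ∀ n : ℕ, ‖cotTerm z (n + 1) + 2 * z * (1 / ((n : ℂ) + 2) ^ (2 * 1)) +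
      2 * z ^ 3 * (1 / ((n : ℂ) + 2) ^ (2 * 2)) + 2 * z ^ 5 * (1 / ((n : ℂ) + 2) ^ (2 * 3))‖ ≤
      16 / 7 * ‖z‖ ^ 7 * (1 / ((n : ℝ) + 2) ^ (2 * 4)) := by
    intro n
    have hn0 : (0 : ℝ) ≤ n := Nat.cast_nonneg n
    have hm1 : ‖((n : ℂ) + 2)‖ = (n : ℝ) + 2 := by
      have : ((n : ℂ) + 2) = (((n : ℝ) + 2 : ℝ) : ℂ) := by push_cast; rfl
      rw [this, Complex.norm_real, Real.norm_of_nonneg (by linarith only [])]
    have hm : ((n : ℂ) + 2) ≠ 0 := by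
      rw [← norm_pos_iff, hm1]
      linarith only []
    have h2 : z - ((n : ℂ) + 2) ≠ 0 := by
      intro h
      have := congrArg norm (sub_eq_zero.mp h)
      rw [hm1] at this
      linarith only [hz7, this]
    have h3 : z + ((n : ℂ) + 2) ≠ 0 := by
      intro h
      have := congrArg norm (eq_neg_of_add_eq_zero_left h)
      rw [norm_neg, hm1] at this
      linarith only [hz7, this]
    have h4 := cot_term (z := z) hm h2 h3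
    have e2 : cotTerm z (n + 1) = 1 / (z - ((n : ℂ) + 2)) + 1 / (z + ((n : ℂ) + 2)) := by
      unfold cotTerm
      push_cast
      congr 3 <;> ring
    rw [e2, h4]
    have e3 : -(2 * z * (1 / ((n : ℂ) + 2) ^ 2)) - 2 * z ^ 3 * (1 / ((n : ℂ) + 2) ^ 4) -
      2 * z ^ 5 * (1 / ((n : ℂ) + 2) ^ 6) -
      2 * z ^ 7 / (((n : ℂ) + 2) ^ 6 * (((n : ℂ) + 2) ^ 2 - z ^ 2)) +
      2 * z * (1 / ((n : ℂ) + 2) ^ (2 * 1)) +
      2 * z ^ 3 * (1 / ((n : ℂ) + 2) ^ (2 * 2)) + 2 * z ^ 5 * (1 / ((n : ℂ) + 2) ^ (2 * 3)) =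
      -(2 * z ^ 7 / (((n : ℂ) + 2) ^ 6 * (((n : ℂ) + 2) ^ 2 - z ^ 2))) := by
      norm_num
      ring
    rw [e3, norm_neg]
    exact norm_rem_le hn n
  have hfin := tsum_of_norm_bounded h8 key
  rw [hb.tsum_eq] at hfin
  have e4 : ph' z - 1 / z - 1 / (z - 1) - 1 / (z + 1) + 2 * z * Zt 1 + 2 * z ^ 3 * Zt 2 +
      2 * z ^ 5 * Zt 3 = Real.pi * Complex.cot (Real.pi * z) - 1 / z - cotTerm z 0 +
      2 * z * Zt 1 + 2 * z ^ 3 * Zt 2 + 2 * z ^ 5 * Zt 3 := by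
    rw [e1]
    unfold cotTerm
    push_cast
    ring
  rw [e4]
  refine hfin.trans (le_of_eq ?_)
  ring

end Pool.Agent.Work.MP_b30479_gt.G2.Num
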