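import Pool.Agent.Work.MP_b30479_gt.G2.Num.CotT
import Pool.Agent.Work.MP_b30479_gt.G2.SEf

/-!
# Explicit values of `Re Fh` (`UU`) near `0`, with error bound
-/

namespace Pool.Agent.Work.MP_b30479_gt.G2.Num

open VOL Complex Filter Topology Set

/-- the first derivative of `G0` -/
noncomputable def G1 (z : ℂ) : ℂ :=
  log z + log (1 + z) + log (1 - z) + (Real.log (2 * Real.pi) : ℂ) - Zt 1 * z ^ 2 -
    Zt 2 / 2 * z ^ 4 - Zt 3 / 3 * z ^ 6

/-- explicit approximation of `Fh` near `0` -/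
noncomputable def G0 (z : ℂ) : ℂ :=
  z * log z + (1 + z) * log (1 + z) - (1 - z) * log (1 - z) +
    ((Real.log (2 * Real.pi) : ℂ) - 3) * z - Zt 1 / 3 * z ^ 3 - Zt 2 / 10 * z ^ 5 -
    Zt 3 / 21 * z ^ 7

theorem slit1 {z : ℂ} (hz : z ∈ strip) : z ∈ slitPlane := Or.inl hz.1

theorem slit2 {z : ℂ} (hz : z ∈ strip) : 1 + z ∈ slitPlane := by
  left
  have := hz.1
  simp only [add_re, one_re]
  linarith only [this]

theorem slit3 {z : ℂ} (hz : z ∈ strip) : 1 - z ∈ slitPlane := by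
  left
  have := hz.2
  simp only [sub_re, one_re]
  linarith only [this]

theorem hasDerivAt_G0 {z : ℂ} (hz : z ∈ strip) : HasDerivAt G0 (G1 z) z := by
  have h1 := slitPlane_ne_zero (slit1 hz)
  have h2 := slitPlane_ne_zero (slit2 hz)
  have h3 := slitPlane_ne_zero (slit3 hz)
  have d0 : HasDerivAt (fun w : ℂ => w) 1 z := hasDerivAt_id z
  have d1 : HasDerivAt (fun w : ℂ => 1 + w) 1 z := d0.const_add 1
  have d2 : HasDerivAt (fun w : ℂ => 1 - w) (-1) z := by simpa using d0.const_sub 1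
  have l1 := d0.clog (slit1 hz)
  have l2 := d1.clog (slit2 hz)
  have l3 := d2.clog (slit3 hz)
  have := (((((d0.mul l1).add (d1.mul l2)).sub (d2.mul l3)).add
    (d0.const_mul ((Real.log (2 * Real.pi) : ℂ) - 3))).sub
    ((d0.pow 3).const_mul ((Zt 1 : ℂ) / 3))).sub ((d0.pow 5).const_mul ((Zt 2 : ℂ) / 10)) |>.sub
    ((d0.pow 7).const_mul ((Zt 3 : ℂ) / 21))
  refine this.congr_deriv ?_
  unfold G1
  field_simp
  push_cast
  ring

theorem hasDerivAt_G1 {z : ℂ} (hz : z ∈ strip) :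
    HasDerivAt G1 (1 / z + 1 / (z - 1) + 1 / (z + 1) - 2 * z * Zt 1 - 2 * z ^ 3 * Zt 2 -
      2 * z ^ 5 * Zt 3) z := by
  have h1 := slitPlane_ne_zero (slit1 hz)
  have h2 := slitPlane_ne_zero (slit2 hz)
  have h3 := slitPlane_ne_zero (slit3 hz)
  have h4 : z - 1 ≠ 0 := by
    intro h
    apply h3
    rw [sub_eq_zero] at h
    rw [h]
    ring
  have h5 : z + 1 ≠ 0 := by rwa [add_comm]
  have d0 : HasDerivAt (fun w : ℂ => w) 1 z := hasDerivAt_id z
  have d1 : HasDerivAt (fun w : ℂ => 1 + w) 1 z := d0.const_add 1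
  have d2 : HasDerivAt (fun w : ℂ => 1 - w) (-1) z := by simpa using d0.const_sub 1
  have l1 := d0.clog (slit1 hz)
  have l2 := d1.clog (slit2 hz)
  have l3 := d2.clog (slit3 hz)
  have := (((((l1.add l2).add l3).add_const (Real.log (2 * Real.pi) : ℂ)).sub
    ((d0.pow 2).const_mul ((Zt 1 : ℂ)))).sub ((d0.pow 4).const_mul ((Zt 2 : ℂ) / 2))).sub
    ((d0.pow 6).const_mul ((Zt 3 : ℂ) / 3))
  refine this.congr_deriv ?_
  have e1 : -1 / (1 - z) = 1 / (z - 1) := by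
    rw [neg_div, ← div_neg]
    congr 1
    ring
  rw [e1]
  have e2 : 1 / (1 + z) = 1 / (z + 1) := by rw [add_comm]
  rw [e2]
  push_cast
  ring

/-! ### integration from `0` -/

theorem bound_zero {E : Type*} [NormedAddCommGroup E] [NormedSpace ℝ E] {f f' : ℝ → E} {C : ℝ}
    {n : ℕ} (hC : 0 ≤ C) (hd : ∀ s ∈ Ioc (0 : ℝ) 1, HasDerivAt f (f' s) s)
    (hb : ∀ s ∈ Ioc (0 : ℝ) 1, ‖f' s‖ ≤ C * s ^ n) (h0 : Tendsto f (𝓝[>] 0) (𝓝 0)) :
    ∀ s ∈ Ioc (0 : ℝ) 1, ‖f s‖ ≤ C / (n + 1) * s ^ (n + 1) := by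
  intro s hs
  have h1 : ∀ ε ∈ Ioo (0 : ℝ) s, ‖f s‖ ≤ ‖f ε‖ + C / (n + 1) * s ^ (n + 1) := by
    intro ε hε
    have hB : ∀ x : ℝ, HasDerivAt (fun x : ℝ => ‖f ε‖ + C / (n + 1) * (x ^ (n + 1) - ε ^ (n + 1)))
        (C * x ^ n) x := by
      intro x
      have e1 : HasDerivAt (fun x : ℝ => x ^ (n + 1)) (((n + 1 : ℕ) : ℝ) * x ^ n) x := by
        simpa using hasDerivAt_pow (n + 1) x
      have e2 := ((e1.sub_const (ε ^ (n + 1))).const_mul (C / (n + 1))).const_add ‖f ε‖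
      refine e2.congr_deriv ?_
      have : ((n : ℝ) + 1) ≠ 0 := by positivity
      push_cast
      field_simp
    have h2 := image_norm_le_of_norm_deriv_right_le_deriv_boundary' (f := f) (f' := f')
      (a := ε) (b := s) (B := fun x : ℝ => ‖f ε‖ + C / (n + 1) * (x ^ (n + 1) - ε ^ (n + 1)))
      (B' := fun x => C * x ^ n)
      (fun x hx => (hd x ⟨lt_of_lt_of_le hε.1 hx.1, hx.2.trans hs.2⟩).continuousAt.continuousWithinAt)
      (fun x hx => (hd x ⟨lt_of_lt_of_le hε.1 hx.1, hx.2.le.trans hs.2⟩).hasDerivWithinAt)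
      (by simp) (fun x _ => (hB x).continuousAt.continuousWithinAt)
      (fun x _ => (hB x).hasDerivWithinAt)
      (fun x hx => hb x ⟨lt_of_lt_of_le hε.1 hx.1, hx.2.le.trans hs.2⟩)
      (right_mem_Icc.mpr hε.2.le)
    refine h2.trans ?_
    have h3 : (0 : ℝ) ≤ ε ^ (n + 1) := pow_nonneg hε.1.le _
    have h4 : (0 : ℝ) ≤ C / (n + 1) := by positivity
    nlinarith only [h3, h4]
  have h5 : Tendsto (fun ε => ‖f ε‖ + C / (n + 1) * s ^ (n + 1)) (𝓝[>] 0)
      (𝓝 (‖(0 : E)‖ + C / (n + 1) * s ^ (n + 1))) := h0.norm.add_const _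
  rw [norm_zero, zero_add] at h5
  apply ge_of_tendsto h5
  filter_upwards [Ioo_mem_nhdsGT hs.1] with ε hε
  exact h1 ε hε

theorem seg_strip {z : ℂ} (hz : z ∈ strip) {s : ℝ} (hs : s ∈ Ioc (0 : ℝ) 1) :
    (s : ℂ) * z ∈ strip := by
  have h1 : ((s : ℂ) * z).re = s * z.re := by simp
  have h2 := hz.1
  have h3 := hz.2
  refine ⟨?_, ?_⟩
  · rw [h1]
    exact mul_pos hs.1 h2
  · rw [h1]
    nlinarith only [h3, h2, hs, hs.1, hs.2]

theorem tendsto_smul_zero (z : ℂ) : Tendsto (fun s : ℝ => (s : ℂ) * z) (𝓝[>] 0) (𝓝 0) := by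
  have h1 : Continuous fun s : ℝ => (s : ℂ) * z := by fun_prop
  have h2 := h1.tendsto 0
  simp only [ofReal_zero, zero_mul] at h2
  exact h2.mono_left nhdsWithin_le_nhds

/-- `log (2 sin π w) - log w - log 2π → 0` -/
theorem tendsto_ph_sub_log {z : ℂ} (hz : z ∈ strip) :
    Tendsto (fun s : ℝ => ph (s * z) - (log (s * z) + (Real.log (2 * Real.pi) : ℂ)))
      (𝓝[>] 0) (𝓝 0) := by
  have hz0 : z ≠ 0 := slitPlane_ne_zero (slit1 hz)
  have hpi : (Real.pi : ℂ) ≠ 0 := by exact_mod_cast Real.pi_ne_zero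
  -- the quotient
  have d1 : HasDerivAt (fun s : ℝ => Complex.sin (Real.pi * (s * z))) (Real.pi * z) 0 := by
    have e1 : HasDerivAt (fun s : ℝ => (Real.pi : ℂ) * ((s : ℂ) * z)) (Real.pi * z) 0 := by
      have := ((Complex.ofRealCLM.hasDerivAt (x := (0 : ℝ))).mul_const z).const_mul (Real.pi : ℂ)
      simpa using this
    have e2 := (Complex.hasDerivAt_sin ((Real.pi : ℂ) * (((0 : ℝ) : ℂ) * z))).comp (0 : ℝ) e1
    refine e2.congr_deriv ?_
    simp
  have h1 := d1.tendsto_slope_zero_right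
  simp only [zero_add, ofReal_zero, zero_mul, mul_zero, Complex.sin_zero, sub_zero] at h1
  have h2 : Tendsto (fun s : ℝ => (s⁻¹ • Complex.sin (Real.pi * (s * z))) / (Real.pi * z))
      (𝓝[>] 0) (𝓝 ((Real.pi * z) / (Real.pi * z))) := h1.div_const _
  rw [div_self (mul_ne_zero hpi hz0)] at h2
  have h3 := ((continuousAt_clog (x := 1) (by simp)).tendsto.comp h2)
  rw [Complex.log_one] at h3
  refine h3.congr' ?_
  have h4 : ∀ᶠ s : ℝ in 𝓝[>] (0 : ℝ),
      0 < ((s⁻¹ • Complex.sin (Real.pi * ((s : ℂ) * z))) / (Real.pi * z) : ℂ).re := by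
    have h5 : Tendsto (fun s : ℝ => ((s⁻¹ • Complex.sin (Real.pi * (s * z))) / (Real.pi * z)).re)
        (𝓝[>] 0) (𝓝 ((1 : ℂ).re)) := (Complex.continuous_re.tendsto 1).comp h2
    apply h5.eventually_const_lt
    simp
  filter_upwards [h4, Ioc_mem_nhdsGT (zero_lt_one : (0 : ℝ) < 1)] with s hs hs1
  have hsz := seg_strip hz hs1
  have hs0 : (s : ℂ) ≠ 0 := by exact_mod_cast hs1.1.ne'
  set q : ℂ := (s⁻¹ • Complex.sin (Real.pi * (s * z))) / (Real.pi * z) with hq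
  have hq0 : q ≠ 0 := by
    intro h
    rw [h] at hs
    simp at hs
  have e1 : 2 * Complex.sin (Real.pi * (s * z)) = ((2 * Real.pi : ℝ) : ℂ) * ((s * z) * q) := by
    rw [hq, Complex.real_smul]
    push_cast
    field_simp
  have e2 : log ((s * z) * q) = log (s * z) + log q := by
    rw [Complex.log_mul_eq_add_log_iff (mul_ne_zero hs0 hz0) hq0]
    have a1 := Complex.abs_arg_lt_pi_div_two_iff.mpr (Or.inl hsz.1)
    have a2 := Complex.abs_arg_lt_pi_div_two_iff.mpr (Or.inl hs)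
    rw [abs_lt] at a1 a2
    constructor <;> linarith only [a1, a2, a1.1, a1.2, a2.1, a2.2]
  simp only [Function.comp_apply]
  unfold ph
  rw [e1, Complex.log_ofReal_mul (by positivity) (mul_ne_zero (mul_ne_zero hs0 hz0) hq0), e2]
  ring

theorem tendsto_dif1 {z : ℂ} (hz : z ∈ strip) :
    Tendsto (fun s : ℝ => ph (s * z) - G1 (s * z)) (𝓝[>] 0) (𝓝 0) := by
  have h1 := tendsto_ph_sub_log hz
  have h2 : ContinuousAt (fun w : ℂ => log (1 + w) + log (1 - w) - Zt 1 * w ^ 2 -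
      Zt 2 / 2 * w ^ 4 - Zt 3 / 3 * w ^ 6) 0 := by
    have c1 : ContinuousAt (fun w : ℂ => log (1 + w)) 0 :=
      ContinuousAt.clog (by fun_prop) (by simp)
    have c2 : ContinuousAt (fun w : ℂ => log (1 - w)) 0 :=
      ContinuousAt.clog (by fun_prop) (by simp)
    fun_prop
  have h3 := h2.tendsto.comp (tendsto_smul_zero z)
  have h4 := h1.sub h3
  simp only [add_zero, sub_zero, Complex.log_one, ne_eq, OfNat.ofNat_ne_zero, not_false_eq_true,
    zero_pow, mul_zero] at h4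
  refine h4.congr fun s => ?_
  simp only [Function.comp_apply]
  unfold G1
  ring

theorem norm_dif1_le {z : ℂ} (hz : z ∈ strip) (hn : ‖z‖ ^ 2 ≤ 1 / 2) :
    ∀ s ∈ Ioc (0 : ℝ) 1, ‖ph (s * z) - G1 (s * z)‖ ≤ 16 / 7 * Zt 4 * ‖z‖ ^ 8 / 8 * s ^ 8 := by
  have h1 := bound_zero (f := fun s : ℝ => ph (s * z) - G1 (s * z))
    (f' := fun s : ℝ => z * (ph' (s * z) - (1 / (s * z) + 1 / (s * z - 1) + 1 / (s * z + 1) -
      2 * (s * z) * Zt 1 - 2 * (s * z) ^ 3 * Zt 2 - 2 * (s * z) ^ 5 * Zt 3)))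
    (C := 16 / 7 * Zt 4 * ‖z‖ ^ 8) (n := 7) (by have := Zt_nonneg 4; positivity) ?_ ?_
    (tendsto_dif1 hz)
  · intro s hs
    have := h1 s hs
    norm_num at this ⊢
    linarith only [this]
  · intro s hs
    have hm := seg_strip hz hs
    have e1 : HasDerivAt (fun s : ℝ => (s : ℂ) * z) z s := by
      have := (Complex.ofRealCLM.hasDerivAt (x := s)).mul_const z
      simpa using this
    have e2 := ((hasDerivAt_ph hm).comp s e1).sub ((hasDerivAt_G1 hm).comp s e1)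
    refine e2.congr_deriv ?_
    ring
  · intro s hs
    have hm := seg_strip hz hs
    have hs0 : 0 ≤ s := hs.1.le
    have e1 : ‖(s : ℂ) * z‖ = s * ‖z‖ := by
      rw [norm_mul, Complex.norm_real, Real.norm_of_nonneg hs0]
    have hsz : ‖(s : ℂ) * z‖ ^ 2 ≤ 1 / 2 := by
      rw [e1, mul_pow]
      have : s ^ 2 ≤ 1 := pow_le_one₀ hs0 hs.2
      nlinarith only [hn, this, sq_nonneg ‖z‖]
    have h2 := ph'_expand hm hsz
    rw [norm_mul]
    have e2 : ph' (s * z) - (1 / (s * z) + 1 / (s * z - 1) + 1 / (s * z + 1) -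
      2 * (s * z) * Zt 1 - 2 * (s * z) ^ 3 * Zt 2 - 2 * (s * z) ^ 5 * Zt 3) =
      ph' (s * z) - 1 / (s * z) - 1 / (s * z - 1) - 1 / (s * z + 1) + 2 * (s * z) * Zt 1 +
        2 * (s * z) ^ 3 * Zt 2 + 2 * (s * z) ^ 5 * Zt 3 := by ring
    rw [e2]
    calc ‖z‖ * _ ≤ ‖z‖ * (16 / 7 * Zt 4 * ‖(s : ℂ) * z‖ ^ 7) :=
          mul_le_mul_of_nonneg_left h2 (norm_nonneg _)
      _ = _ := by rw [e1]; ring

/-- the first derivative `ph` near `0` -/
theorem norm_ph_sub_G1 {z : ℂ} (hz : z ∈ strip) (hn : ‖z‖ ^ 2 ≤ 1 / 2) :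
    ‖ph z - G1 z‖ ≤ 2 / 7 * Zt 4 * ‖z‖ ^ 8 := by
  have h1 := norm_dif1_le hz hn 1 ⟨one_pos, le_rfl⟩
  simp only [ofReal_one, one_mul, one_pow, mul_one] at h1
  refine h1.trans (le_of_eq ?_)
  ring

theorem UU_zero : UU 0 = 0 := by
  have h1 := UU_one_sub 0
  have h2 := UU_add_one 0
  simp only [sub_zero, zero_add, zero_im, abs_zero, mul_zero, add_zero] at h1 h2
  linarith only [h1, h2]

theorem tendsto_G0 {z : ℂ} (hz : z ∈ strip) :
    Tendsto (fun s : ℝ => G0 (s * z)) (𝓝[>] 0) (𝓝 0) := by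
  have hz0 : z ≠ 0 := slitPlane_ne_zero (slit1 hz)
  have h2 : ContinuousAt (fun w : ℂ => (1 + w) * log (1 + w) - (1 - w) * log (1 - w) +
    ((Real.log (2 * Real.pi) : ℂ) - 3) * w - Zt 1 / 3 * w ^ 3 - Zt 2 / 10 * w ^ 5 -
    Zt 3 / 21 * w ^ 7) 0 := by
    have c1 : ContinuousAt (fun w : ℂ => log (1 + w)) 0 :=
      ContinuousAt.clog (by fun_prop) (by simp)
    have c2 : ContinuousAt (fun w : ℂ => log (1 - w)) 0 :=
      ContinuousAt.clog (by fun_prop) (by simp)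
    fun_prop
  have h3 := h2.tendsto.comp (tendsto_smul_zero z)
  have h4 : Tendsto (fun s : ℝ => ((s * Real.log s : ℝ) : ℂ) * z + (s : ℂ) * (z * log z))
      (𝓝[>] 0) (𝓝 0) := by
    have c1 : Continuous fun s : ℝ => ((s * Real.log s : ℝ) : ℂ) * z + (s : ℂ) * (z * log z) := by
      have := Real.continuous_mul_log
      fun_prop
    have c2 := c1.tendsto 0
    simp only [zero_mul, ofReal_zero, add_zero] at c2
    exact c2.mono_left nhdsWithin_le_nhds
  have h5 := h4.add h3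
  simp only [add_zero, sub_zero, Complex.log_one, ne_eq, OfNat.ofNat_ne_zero, not_false_eq_true,
    zero_pow, mul_zero] at h5
  refine h5.congr' ?_
  filter_upwards [self_mem_nhdsWithin] with s hs
  have hs0 : (0 : ℝ) < s := hs
  simp only [Function.comp_apply]
  unfold G0
  rw [Complex.log_ofReal_mul hs0 hz0]
  push_cast
  ring

/-- `Re Fh` near `0` -/
theorem abs_UU_sub_G0 {z : ℂ} (hz : z ∈ strip) (hn : ‖z‖ ^ 2 ≤ 1 / 2) :
    |UU z - (G0 z).re| ≤ 2 / 63 * Zt 4 * ‖z‖ ^ 9 := by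
  have h1 := bound_zero (f := fun s : ℝ => UU (s * z) - (G0 (s * z)).re)
    (f' := fun s : ℝ => (z * (ph (s * z) - G1 (s * z))).re)
    (C := 16 / 7 * Zt 4 * ‖z‖ ^ 9 / 8) (n := 8) (by have := Zt_nonneg 4; positivity) ?_ ?_ ?_
  · have := h1 1 ⟨one_pos, le_rfl⟩
    simp only [ofReal_one, one_mul, one_pow, mul_one, Real.norm_eq_abs] at this
    norm_num at this ⊢
    linarith only [this]
  · intro s hs
    have hm := seg_strip hz hs
    have e1 : HasDerivAt (fun s : ℝ => (s : ℂ) * z) z s := by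
      have := (Complex.ofRealCLM.hasDerivAt (x := s)).mul_const z
      simpa using this
    have e2 := ((hasDerivAt_Fh hm).comp s e1).sub ((hasDerivAt_G0 hm).comp s e1)
    have e3 : HasDerivAt (fun s : ℝ => ((Fh (s * z) - G0 (s * z)) : ℂ).re)
        ((ph (s * z) * z - G1 (s * z) * z) : ℂ).re s :=
      (Complex.reCLM.hasFDerivAt.comp_hasDerivAt s e2)
    have e4 : (fun s : ℝ => UU (s * z) - (G0 (s * z)).re) =ᶠ[𝓝 s]
        fun s : ℝ => ((Fh (s * z) - G0 (s * z)) : ℂ).re := by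
      have hc : Continuous fun s : ℝ => (s : ℂ) * z := by fun_prop
      filter_upwards [hc.continuousAt.preimage_mem_nhds (strip_open.mem_nhds hm)] with t ht
      rw [UU_eq_Fh ht, Complex.sub_re]
    have e5 := e3.congr_of_eventuallyEq e4
    refine e5.congr_deriv ?_
    congr 1
    ring
  · intro s hs
    have h2 := norm_dif1_le hz hn s hs
    have h3 := Complex.abs_re_le_norm (z * (ph (s * z) - G1 (s * z)))
    rw [norm_mul] at h3
    rw [Real.norm_eq_abs]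
    refine h3.trans ?_
    calc ‖z‖ * _ ≤ ‖z‖ * (16 / 7 * Zt 4 * ‖z‖ ^ 8 / 8 * s ^ 8) :=
          mul_le_mul_of_nonneg_left h2 (norm_nonneg _)
      _ = _ := by ring
  · have h2 := (continuous_UU.tendsto 0).comp (tendsto_smul_zero z)
    have h3 := (Complex.continuous_re.tendsto 0).comp (tendsto_G0 hz)
    have h4 := h2.sub h3
    rw [UU_zero, Complex.zero_re, sub_zero] at h4
    exact h4

end Pool.Agent.Work.MP_b30479_gt.G2.Num
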