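import Mathlib

/-!
# The numbers `ζ(2k) - 1` for `k = 1, 2, 3, 4`
-/

namespace Pool.Agent.Work.MP_b30479_gt.G2.Num

open Finset

/-- `ζ(2k) - 1` -/
noncomputable def Zt (k : ℕ) : ℝ := ∑' n : ℕ, 1 / ((n : ℝ) + 2) ^ (2 * k)

theorem hasSum_Zt {k : ℕ} (hk : k ≠ 0) {c : ℝ}
    (h : HasSum (fun n : ℕ => 1 / (n : ℝ) ^ (2 * k)) c) :
    HasSum (fun n : ℕ => 1 / ((n : ℝ) + 2) ^ (2 * k)) (c - 1) := by
  have h1 := (hasSum_nat_add_iff' 2).mpr h
  have h2 : ∑ i ∈ range 2, 1 / ((i : ℕ) : ℝ) ^ (2 * k) = 1 := by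
    rw [sum_range_succ, sum_range_one]
    have : (0 : ℝ) ^ (2 * k) = 0 := zero_pow (by omega)
    simp [this]
  rw [h2] at h1
  simpa using h1

theorem summable_Zt {k : ℕ} (hk : k ≠ 0) :
    Summable (fun n : ℕ => 1 / ((n : ℝ) + 2) ^ (2 * k)) :=
  (hasSum_Zt hk (hasSum_zeta_nat hk)).summable

theorem Zt_one : Zt 1 = Real.pi ^ 2 / 6 - 1 := by
  have h := hasSum_Zt one_ne_zero (c := Real.pi ^ 2 / 6) (by simpa using hasSum_zeta_two)
  exact h.tsum_eq

theorem Zt_two : Zt 2 = Real.pi ^ 4 / 90 - 1 := by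
  have h := hasSum_Zt two_ne_zero (c := Real.pi ^ 4 / 90) (by simpa using hasSum_zeta_four)
  exact h.tsum_eq

theorem bernoulli_six : bernoulli 6 = 1 / 42 := by
  rw [bernoulli_eq_bernoulli'_of_ne_one (by norm_num), bernoulli'_def]
  have h5 : bernoulli' 5 = 0 := bernoulli'_eq_zero_of_odd (by decide) (by norm_num)
  norm_num [sum_range_succ, Nat.choose, h5]

theorem Zt_three : Zt 3 = Real.pi ^ 6 / 945 - 1 := by
  have h1 := hasSum_zeta_nat (k := 3) (by norm_num)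
  have h := hasSum_Zt (by norm_num) h1
  have h2 : Zt 3 = _ := h.tsum_eq
  rw [h2]
  have h3 : (bernoulli (2 * 3) : ℚ) = 1 / 42 := bernoulli_six
  rw [h3]
  have h4 : ((2 * 3).factorial : ℝ) = 720 := by norm_num [Nat.factorial]
  rw [h4]
  push_cast
  ring

theorem Zt_nonneg (k : ℕ) : 0 ≤ Zt k := tsum_nonneg fun n => by positivity

theorem Zt_succ_le {k : ℕ} (hk : k ≠ 0) : Zt (k + 1) ≤ Zt k / 4 := by
  unfold Zt
  rw [← tsum_div_const]
  apply Summable.tsum_le_tsum _ (summable_Zt (by omega)) ((summable_Zt hk).div_const 4)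
  intro n
  have hn : (0 : ℝ) ≤ n := Nat.cast_nonneg n
  have e : ((n : ℝ) + 2) ^ (2 * (k + 1)) = ((n : ℝ) + 2) ^ (2 * k) * ((n : ℝ) + 2) ^ 2 := by
    rw [← pow_add]
    ring_nf
  rw [e, div_div, one_div_le_one_div (by positivity) (by positivity)]
  apply mul_le_mul_of_nonneg_left _ (by positivity)
  nlinarith

/-! ### rational bounds -/

theorem pi_pow_bounds {k : ℕ} : (3.14159265358979 : ℝ) ^ k ≤ Real.pi ^ k ∧
    Real.pi ^ k ≤ (3.14159265358980 : ℝ) ^ k := by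
  have h1 := Real.pi_gt_d20
  have h2 := Real.pi_lt_d20
  constructor
  · exact pow_le_pow_left₀ (by norm_num) (by linarith only [h1, h2]) k
  · exact pow_le_pow_left₀ Real.pi_pos.le (by linarith only [h1, h2]) k

theorem Zt_one_bounds : (0.6449340668 : ℝ) ≤ Zt 1 ∧ Zt 1 ≤ 0.6449340669 := by
  rw [Zt_one]
  obtain ⟨h1, h2⟩ := pi_pow_bounds (k := 2)
  constructor
  · norm_num at h1 ⊢
    linarith only [h1]
  · norm_num at h2 ⊢
    linarith only [h2]

theorem Zt_two_bounds : (0.0823232337 : ℝ) ≤ Zt 2 ∧ Zt 2 ≤ 0.0823232338 := by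
  rw [Zt_two]
  obtain ⟨h1, h2⟩ := pi_pow_bounds (k := 4)
  constructor
  · norm_num at h1 ⊢
    linarith only [h1]
  · norm_num at h2 ⊢
    linarith only [h2]

theorem Zt_three_bounds : (0.0173430619 : ℝ) ≤ Zt 3 ∧ Zt 3 ≤ 0.0173430620 := by
  rw [Zt_three]
  obtain ⟨h1, h2⟩ := pi_pow_bounds (k := 6)
  constructor
  · norm_num at h1 ⊢
    linarith only [h1]
  · norm_num at h2 ⊢
    linarith only [h2]

theorem Zt_four_le : Zt 4 ≤ 0.00433577 := by
  have h1 := Zt_succ_le (k := 3) (by norm_num)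
  have h2 := Zt_three_bounds.2
  norm_num at h1 h2 ⊢
  linarith only [h1, h2]

end Pool.Agent.Work.MP_b30479_gt.G2.Num
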